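import Pool.Agent.H6.TC7

set_option autoImplicit false

namespace Pool.Agent.Results.MP_4cc966_co.TwoCyclesIff

/-- `C_m ∪ C_n` (`m, n ≥ 3`) has a vertex-magic total labeling iff `(m, n) ≠ (3, 3)`.
In each cycle, vertex `i` lies on the edges `i` and `i + 1` (modulo the cycle length);
`v` labels the vertices and `e` labels the edges. -/
theorem result (m n : ℕ) (hm : 3 ≤ m) (hn : 3 ≤ n) :
    (∃ v e : Fin m ⊕ Fin n → ℕ, ∃ k : ℕ,
      Set.BijOn (Sum.elim v e) Set.univ (Set.Icc 1 ((m + n) + (m + n))) ∧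
      (∀ i j : Fin m, j.val = (i.val + 1) % m →
        v (Sum.inl i) + (e (Sum.inl i) + e (Sum.inl j)) = k) ∧
      (∀ i j : Fin n, j.val = (i.val + 1) % n →
        v (Sum.inr i) + (e (Sum.inr i) + e (Sum.inr j)) = k)) ↔ ¬ (m = 3 ∧ n = 3) := by
  constructor
  · rintro h ⟨rfl, rfl⟩
    exact Pool.Agent.H6.GS.vmtl33 h
  · exact Pool.Agent.H6.GS.vmtl m n hm hn

end Pool.Agent.Results.MP_4cc966_co.TwoCyclesIff
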